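import Mathlib
import Pool.Agent.X188.FracOp

/-! The integral operator on `L²([0,1])` with kernel `{u/y} / (u/y)` is not of trace class. -/

set_option autoImplicit false
open MeasureTheory
open scoped InnerProductSpace ENNReal

namespace Pool.Agent.Results.MP_5a0ad8_an.NotTraceClass

noncomputable section

/-- Lebesgue measure on `[0,1]` -/
abbrev unitMeasure : Measure ℝ := volume.restrict (Set.Icc (0 : ℝ) 1)

/-- the complex Hilbert space `L²([0,1])` -/
abbrev L2unit : Type := Lp ℂ 2 unitMeasure

/-- the kernel `K(y,u) = {u/y} / (u/y)` -/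
def kernel (y u : ℝ) : ℝ := Int.fract (u / y) / (u / y)

/-- `T` is the integral operator `(T h)(y) = ∫₀¹ K(y,u) h(u) du` (for almost every `y`). -/
def IsKernelOperator (T : L2unit →L[ℂ] L2unit) : Prop :=
  ∀ h : L2unit, ∀ᵐ y ∂unitMeasure, T h y = ∫ u, (kernel y u : ℂ) * h u ∂unitMeasure

section General

variable {H : Type} [NormedAddCommGroup H] [InnerProductSpace ℂ H] [CompleteSpace H]

/-- The Hilbert basis `b` consists of eigenvectors of `|T| = (T* T)^{1/2}` and `s` lists the
corresponding eigenvalues. For compact `T` such a basis exists and the nonzero `s i` are the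
singular values of `T`, counted with multiplicity. -/
def IsSingularSystem (T : H →L[ℂ] H) {ι : Type} (b : HilbertBasis ι ℂ H) (s : ι → ℝ) : Prop :=
  ∀ i, CFC.abs T (b i) = (s i : ℂ) • b i

/-- `T` is of trace class in the sense of nuclear operators:
`T v = ∑ ⟨x i, v⟩ y i` for all `v`, with `∑ ‖x i‖ ‖y i‖ < ∞`. -/
def IsNuclearOp (T : H →L[ℂ] H) : Prop :=
  ∃ (ι : Type) (x y : ι → H), Summable (fun i => ‖x i‖ * ‖y i‖) ∧
    ∀ v, HasSum (fun i => ⟪x i, v⟫_ℂ • y i) (T v)

end General

/-- **Main result.** There is exactly one bounded operator `T` on `L²([0,1])` with kernel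
`{u/y}/(u/y)`, and it is not of trace class: it is not nuclear, and its singular values are not
summable. -/
theorem result : ∃ T : L2unit →L[ℂ] L2unit, IsKernelOperator T ∧
    (∀ T', IsKernelOperator T' → T' = T) ∧ ¬ IsNuclearOp T ∧
    ∀ (ι : Type) (b : HilbertBasis ι ℂ L2unit) (s : ι → ℝ),
      IsSingularSystem T b s → ¬ Summable s := by
  refine ⟨X188.FracOp.TT, X188.FracOp.TT_ae, ?_, X188.FracOp.TT_not_nuclear, ?_⟩
  · intro T' hT'
    ext h
    filter_upwards [hT' h, X188.FracOp.TT_ae h] with y h1 h2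
    rw [h1, h2]
    rfl
  · intro ι b s hb hs
    exact X188.FracOp.TT_not_nuclear (X188.Nuc.nuclear_of_eigen b s hb hs)

end

end Pool.Agent.Results.MP_5a0ad8_an.NotTraceClass
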